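import Pool.Agent.W261.NM.Stm

/-!
# NM-IND: independence of few digits from bounds for exponential sums (Fejer kernels)
-/

set_option autoImplicit false
set_option relaxedAutoImplicit false

open Filter Topology Set Finset

namespace Pool.Agent.W991.NM

open Pool.Agent.W261.NM

theorem ex_add (x y : ℝ) : ex (x + y) = ex x * ex y := by
  unfold ex; rw [← Complex.exp_add]; congr 1; push_cast; ring

theorem ex_zero : ex 0 = 1 := by simp [ex]

theorem ex_eq (x : ℝ) : ex x = Complex.exp (Complex.I * ((2 * Real.pi * x : ℝ) : ℂ)) := by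
  unfold ex; congr 1; push_cast; ring

theorem norm_ex (x : ℝ) : ‖ex x‖ = 1 := by
  unfold ex
  have : (2 * (Real.pi:ℂ) * x * Complex.I : ℂ) = ((2 * Real.pi * x : ℝ) : ℂ) * Complex.I := by push_cast; ring
  rw [this, Complex.norm_exp_ofReal_mul_I]

theorem ex_int (n : ℤ) : ex n = 1 := by
  unfold ex
  rw [show (2 * (Real.pi:ℂ) * ((n:ℝ):ℂ) * Complex.I) = n * (2 * Real.pi * Complex.I) by push_cast; ring]
  exact Complex.exp_int_mul_two_pi_mul_I n

theorem conj_ex (x : ℝ) : (starRingEnd ℂ) (ex x) = ex (-x) := by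
  unfold ex
  rw [← Complex.exp_conj]; congr 1
  simp
  left
  exact Complex.conj_ofNat 2

theorem ex_cont : Continuous ex := by unfold ex; fun_prop

theorem ex_pow (v : ℝ) (j : ℕ) : ex v ^ j = ex (j * v) := by
  unfold ex
  rw [← Complex.exp_nat_mul]; congr 1; push_cast; ring

noncomputable def Kr (H : ℕ) (v : ℝ) : ℝ := 1 / (H:ℝ) * ‖∑ j ∈ range H, ex (j * v)‖ ^ 2

theorem Kr_nonneg (H : ℕ) (v : ℝ) : 0 ≤ Kr H v := by unfold Kr; positivity

theorem Kr_cont (H : ℕ) : Continuous (Kr H) := by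
  unfold Kr
  refine continuous_const.mul ((Continuous.norm ?_).pow 2)
  exact continuous_finsetSum _ fun j _ => ex_cont.comp (by fun_prop)

theorem Kr_sub_int (H : ℕ) (v : ℝ) (n : ℤ) : Kr H (v - n) = Kr H v := by
  unfold Kr
  congr 3
  refine Finset.sum_congr rfl fun j _ => ?_
  have : (j:ℝ) * (v - n) = j * v + ((-(j * n) : ℤ) : ℝ) := by push_cast; ring
  rw [this, ex_add, ex_int, mul_one]

theorem Kr_expand (H : ℕ) (v : ℝ) : ((Kr H v : ℝ) : ℂ) =
    1 / (H:ℂ) * ∑ p ∈ range H ×ˢ range H, ex ((((p.1:ℤ) - p.2 : ℤ) : ℝ) * v) := by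
  unfold Kr
  push_cast
  rw [← Complex.mul_conj', map_sum, Finset.sum_mul_sum, ← Finset.sum_product']
  congr 1
  refine Finset.sum_congr rfl fun p _ => ?_
  rw [conj_ex, ← ex_add]
  congr 1; ring

theorem Kr_upper_aux (H : ℕ) (v w : ℝ) (hw : 0 < w) (hs : 2 * w ≤ |Real.sin (Real.pi * v)|) :
    Kr H v ≤ 1 / (4 * H) * (1 / w ^ 2) := by
  have h1 : (∑ j ∈ range H, ex (j * v)) * (ex v - 1) = ex (H * v) - 1 := by
    rw [← ex_pow v H, ← geom_sum_mul (ex v) H]
    congr 1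
    exact Finset.sum_congr rfl fun j _ => (ex_pow v j).symm
  have h2 : ‖ex v - 1‖ = 2 * |Real.sin (Real.pi * v)| := by
    rw [ex_eq, Complex.norm_exp_I_mul_ofReal_sub_one, Real.norm_eq_abs, abs_mul]
    congr 1
    · norm_num
    · congr 2; ring
  have h3 : ‖∑ j ∈ range H, ex (j * v)‖ * ‖ex v - 1‖ ≤ 2 := by
    rw [← norm_mul, h1]
    calc ‖ex (H * v) - 1‖ ≤ ‖ex (H * v)‖ + ‖(1:ℂ)‖ := norm_sub_le _ _
      _ = 2 := by rw [norm_ex]; norm_num
  have h4 : ‖∑ j ∈ range H, ex (j * v)‖ ≤ 1 / (2 * w) := by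
    rw [le_div_iff₀ (by positivity)]
    have h5 : 4 * w ≤ ‖ex v - 1‖ := by rw [h2]; linarith
    have h6 : 0 ≤ ‖∑ j ∈ range H, ex (j * v)‖ := norm_nonneg _
    nlinarith
  unfold Kr
  have h5 : ‖∑ j ∈ range H, ex (j * v)‖ ^ 2 ≤ (1 / (2 * w)) ^ 2 := pow_le_pow_left₀ (norm_nonneg _) h4 2
  calc 1 / (H:ℝ) * ‖∑ j ∈ range H, ex (j * v)‖ ^ 2 ≤ 1 / (H:ℝ) * (1 / (2 * w)) ^ 2 :=
        mul_le_mul_of_nonneg_left h5 (by positivity)
    _ = 1 / (4 * H) * (1 / w ^ 2) := by
        rcases Nat.eq_zero_or_pos H with h | h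
        · subst h; simp
        · have : (H:ℝ) ≠ 0 := by positivity
          field_simp; ring

theorem Kr_upper (H : ℕ) (v : ℝ) (h0 : 0 < v) (h1 : v < 1) :
    Kr H v ≤ 1 / (4 * H) * (1 / v ^ 2 + 1 / (1 - v) ^ 2) := by
  have hH : (0:ℝ) ≤ 1 / (4 * H) := by positivity
  have hpi := Real.pi_pos
  rcases le_total v (1 / 2) with hv | hv
  · have hs : 2 * v ≤ Real.sin (Real.pi * v) := by
      have := Real.mul_le_sin (x := Real.pi * v) (by positivity) (by nlinarith)
      rw [show 2 / Real.pi * (Real.pi * v) = 2 * v by field_simp] at this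
      exact this
    refine le_trans (Kr_upper_aux H v v h0 (le_trans hs (le_abs_self _))) ?_
    refine mul_le_mul_of_nonneg_left ?_ hH
    have : 0 ≤ 1 / (1 - v) ^ 2 := by positivity
    linarith
  · have hs : 2 * (1 - v) ≤ Real.sin (Real.pi * v) := by
      have := Real.mul_le_sin (x := Real.pi * (1 - v)) (by nlinarith) (by nlinarith)
      rw [show 2 / Real.pi * (Real.pi * (1 - v)) = 2 * (1 - v) by field_simp,
        show Real.pi * (1 - v) = Real.pi - Real.pi * v by ring, Real.sin_pi_sub] at this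
      exact this
    refine le_trans (Kr_upper_aux H v (1 - v) (by linarith) (le_trans hs (le_abs_self _))) ?_
    refine mul_le_mul_of_nonneg_left ?_ hH
    have : 0 ≤ 1 / v ^ 2 := by positivity
    linarith

theorem Kr_lower (M : ℕ) (hM : 1 ≤ M) (v : ℝ) (n : ℤ) (hv : |v - n| ≤ 1 / (8 * M)) : (M:ℝ) / 4 ≤ Kr M v := by
  rw [← Kr_sub_int M v n]
  set w := v - n with hw
  have hM0 : (0:ℝ) < M := by exact_mod_cast hM
  have h1 : (M:ℝ) / 2 ≤ (∑ j ∈ range M, ex (j * w)).re := by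
    rw [Complex.re_sum]
    have h2 : ∀ j ∈ range M, (1:ℝ) / 2 ≤ (ex (j * w)).re := by
      intro j hj
      have hj' : (j:ℝ) ≤ M := by exact_mod_cast (Finset.mem_range.1 hj).le
      rw [ex_eq, mul_comm Complex.I, Complex.exp_ofReal_mul_I_re]
      have h3 : |2 * Real.pi * (j * w)| ≤ 1 := by
        rw [abs_mul, abs_mul, abs_mul]
        have e1 : |(2:ℝ)| = 2 := by norm_num
        have e2 : |Real.pi| = Real.pi := abs_of_pos Real.pi_pos
        have e3 : |(j:ℝ)| = j := abs_of_nonneg (by positivity)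
        rw [e1, e2, e3]
        have h4 : (j:ℝ) * |w| ≤ M * (1 / (8 * M)) := mul_le_mul hj' hv (abs_nonneg _) hM0.le
        have h5 : (M:ℝ) * (1 / (8 * M)) = 1 / 8 := by field_simp
        rw [h5] at h4
        have h6 := Real.pi_lt_d2
        have h7 := Real.pi_pos
        have h8 : 0 ≤ (j:ℝ) * |w| := by positivity
        nlinarith
      have h4 := Real.one_sub_sq_div_two_le_cos (x := 2 * Real.pi * (j * w))
      have h5 : (2 * Real.pi * (j * w)) ^ 2 ≤ 1 := by
        rw [← sq_abs]; nlinarith [abs_nonneg (2 * Real.pi * (j * w))]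
      linarith
    calc (M:ℝ) / 2 = ∑ j ∈ range M, (1:ℝ) / 2 := by simp; ring
      _ ≤ _ := Finset.sum_le_sum h2
  have h2 : (M:ℝ) / 2 ≤ ‖∑ j ∈ range M, ex (j * w)‖ := le_trans h1 (Complex.re_le_norm _)
  unfold Kr
  calc (M:ℝ) / 4 = 1 / (M:ℝ) * ((M:ℝ) / 2) ^ 2 := by field_simp; norm_num
    _ ≤ _ := mul_le_mul_of_nonneg_left (pow_le_pow_left₀ (by positivity) h2 2) (by positivity)

/-! ## integrals of the kernel -/

noncomputable def Fr (H : ℕ) (α β t : ℝ) : ℝ := ∫ u in α..β, Kr H (t - u)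
noncomputable def cc (α β : ℝ) (h : ℤ) : ℂ := ∫ u in α..β, ex (-((h:ℝ) * u))

theorem Kr_int (H : ℕ) (t α β : ℝ) : IntervalIntegrable (fun u => Kr H (t - u)) MeasureTheory.volume α β :=
  ((Kr_cont H).comp (by fun_prop)).intervalIntegrable _ _

theorem Fr_expand (H : ℕ) (α β t : ℝ) : ((Fr H α β t : ℝ) : ℂ) = ∑ p ∈ range H ×ˢ range H,
    1 / (H:ℂ) * (ex ((((p.1:ℤ) - p.2 : ℤ) : ℝ) * t) * cc α β ((p.1:ℤ) - p.2)) := by
  unfold Fr cc
  rw [← intervalIntegral.integral_ofReal]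
  simp_rw [Kr_expand]
  rw [intervalIntegral.integral_const_mul, intervalIntegral.integral_finsetSum, Finset.mul_sum]
  · refine Finset.sum_congr rfl fun p _ => ?_
    congr 1
    rw [← intervalIntegral.integral_const_mul]
    congr 1; ext u
    rw [← ex_add]; congr 1; ring
  · intro p _
    exact (ex_cont.comp (by fun_prop)).intervalIntegrable _ _

theorem cc_zero (α β : ℝ) : cc α β 0 = ((β - α : ℝ) : ℂ) := by
  unfold cc
  simp [ex_zero]

theorem cc_norm (α β : ℝ) (h : α ≤ β) (k : ℤ) : ‖cc α β k‖ ≤ β - α := by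
  unfold cc
  have := intervalIntegral.norm_integral_le_of_norm_le_const (a := α) (b := β) (C := 1)
    (f := fun u => ex (-((k:ℝ) * u))) (fun u _ => (norm_ex _).le)
  rw [abs_of_nonneg (by linarith), one_mul] at this
  exact this

theorem cc_eq_zero (α : ℝ) (b : ℕ) (hb : 1 ≤ b) (h : ℤ) (h0 : h ≠ 0) (hd : (b:ℤ) ∣ h) :
    cc α (α + 1 / b) h = 0 := by
  unfold cc ex
  have hb0 : (b:ℂ) ≠ 0 := by
    have : b ≠ 0 := by omega
    exact_mod_cast this
  set c : ℂ := -(2 * Real.pi * h * Complex.I) with hc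
  have hc0 : c ≠ 0 := by
    have : (h:ℂ) ≠ 0 := by exact_mod_cast h0
    rw [hc]
    simp [this, Real.pi_ne_zero, Complex.I_ne_zero]
  have e1 : ∀ u : ℝ, (2 * (Real.pi:ℂ) * ((-((h:ℝ) * u) : ℝ) : ℂ) * Complex.I) = c * u := by
    intro u; rw [hc]; push_cast; ring
  simp_rw [e1]
  rw [integral_exp_mul_complex hc0]
  obtain ⟨k, hk⟩ := hd
  have e2 : c * ((α + 1 / b : ℝ) : ℂ) = c * α + ((-k : ℤ) : ℂ) * (2 * Real.pi * Complex.I) := by
    rw [hc, hk]; push_cast; field_simp; ring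
  rw [e2, Complex.exp_add, Complex.exp_int_mul_two_pi_mul_I, mul_one, sub_self, zero_div]

theorem diag_sum {R : Type*} [AddCommMonoid R] (M : ℕ) (c : R) :
    ∑ p ∈ range M ×ˢ range M, (if ((p.1:ℤ) - p.2) = 0 then c else 0) = M • c := by
  rw [Finset.sum_product]
  have : ∀ x ∈ range M, ∑ y ∈ range M, (if (((x:ℕ):ℤ) - (y:ℕ)) = 0 then c else 0) = c := by
    intro x hx
    rw [Finset.sum_eq_single x]
    · simp
    · intro y _ hy
      rw [if_neg]
      omega
    · intro h; exact absurd hx h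
  rw [Finset.sum_congr rfl this]
  simp

theorem Fr_period (H : ℕ) (hH : 1 ≤ H) (α t : ℝ) : Fr H α (α + 1) t = 1 := by
  have h1 := Fr_expand H α (α + 1) t
  have h2 : ∀ p ∈ range H ×ˢ range H,
      1 / (H:ℂ) * (ex ((((p.1:ℤ) - p.2 : ℤ) : ℝ) * t) * cc α (α + 1) ((p.1:ℤ) - p.2)) =
        if ((p.1:ℤ) - p.2) = 0 then 1 / (H:ℂ) else 0 := by
    intro p _
    split_ifs with h
    · rw [h, cc_zero]; simp [ex_zero]
    · have := cc_eq_zero α 1 le_rfl ((p.1:ℤ) - p.2) h (by simp)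
      rw [Nat.cast_one, div_one] at this
      rw [this]; simp
  rw [Finset.sum_congr rfl h2, diag_sum] at h1
  have hH0 : (H:ℂ) ≠ 0 := by
    have : H ≠ 0 := by omega
    exact_mod_cast this
  have h3 : (H:ℕ) • (1 / (H:ℂ)) = 1 := by rw [nsmul_eq_mul]; field_simp
  rw [h3] at h1
  exact_mod_cast h1

theorem Fr_nonneg (H : ℕ) (α β t : ℝ) (h : α ≤ β) : 0 ≤ Fr H α β t :=
  intervalIntegral.integral_nonneg h fun _ _ => Kr_nonneg _ _

theorem Fr_add (H : ℕ) (α β γ t : ℝ) : Fr H α β t + Fr H β γ t = Fr H α γ t :=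
  intervalIntegral.integral_add_adjacent_intervals (Kr_int H t α β) (Kr_int H t β γ)

theorem Fr_le_one (H : ℕ) (hH : 1 ≤ H) (α β t : ℝ) (h : β ≤ α + 1) : Fr H α β t ≤ 1 := by
  have h1 := Fr_add H α β (α + 1) t
  have h2 := Fr_nonneg H β (α + 1) t h
  have h3 := Fr_period H hH α t
  linarith

theorem tail (H : ℕ) (δ : ℝ) (hδ : 0 < δ) (t x y : ℝ) (n : ℤ) (hxy : x ≤ y)
    (h1 : δ ≤ t - y - n) (h2 : t - x - n ≤ 1 - δ) : Fr H x y t ≤ 1 / (2 * H * δ) := by
  have hH : (0:ℝ) ≤ 1 / (4 * H) := by positivity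
  -- the majorant
  set G : ℝ → ℝ := fun u => 1 / (4 * (H:ℝ)) * ((t - n - u)⁻¹ - (1 - t + n + u)⁻¹) with hG
  set g : ℝ → ℝ := fun u => 1 / (4 * (H:ℝ)) * (1 / (t - u - n) ^ 2 + 1 / (1 - (t - u - n)) ^ 2) with hg
  have hpos : ∀ u ∈ Set.Icc x y, 0 < t - u - n ∧ t - u - n < 1 := by
    intro u hu
    constructor <;> linarith [hu.1, hu.2]
  have hder : ∀ u ∈ Set.uIcc x y, HasDerivAt G (g u) u := by
    intro u hu
    rw [Set.uIcc_of_le hxy] at hu
    obtain ⟨p1, p2⟩ := hpos u hu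
    have d1 : HasDerivAt (fun u : ℝ => t - n - u) (-1) u := by
      simpa using (hasDerivAt_id u).const_sub (t - n)
    have d2 : HasDerivAt (fun u : ℝ => 1 - t + n + u) 1 u := by
      simpa using (hasDerivAt_id u).const_add (1 - t + n)
    have n1 : t - n - u ≠ 0 := by intro h; linarith
    have n2 : 1 - t + n + u ≠ 0 := by intro h; linarith
    have d3 := (d1.inv n1).sub (d2.inv n2)
    have d4 := d3.const_mul (1 / (4 * (H:ℝ)))
    have e0 : g u = 1 / (4 * (H:ℝ)) * (-(-1) / (t - n - u) ^ 2 - -1 / (1 - t + n + u) ^ 2) := by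
      rw [hg]
      simp only
      have e1 : (t - u - n) = (t - n - u) := by ring
      have e2 : 1 - (t - n - u) = 1 - t + n + u := by ring
      rw [e1, e2]
      ring
    rw [e0]
    exact d4
  have hgc : ContinuousOn g (Set.uIcc x y) := by
    rw [Set.uIcc_of_le hxy]
    refine continuousOn_const.mul (ContinuousOn.add ?_ ?_)
    · refine continuousOn_const.div (by fun_prop) ?_
      intro u hu
      have := (hpos u hu).1
      positivity
    · refine continuousOn_const.div (by fun_prop) ?_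
      intro u hu
      have := (hpos u hu).2
      have : 0 < 1 - (t - u - n) := by linarith
      positivity
  have hI := intervalIntegral.integral_eq_sub_of_hasDerivAt hder hgc.intervalIntegrable
  have hle : Fr H x y t ≤ ∫ u in x..y, g u := by
    refine intervalIntegral.integral_mono_on hxy (Kr_int H t x y) hgc.intervalIntegrable ?_
    intro u hu
    obtain ⟨p1, p2⟩ := hpos u hu
    rw [← Kr_sub_int H (t - u) n]
    exact Kr_upper H _ p1 p2
  rw [hI] at hle
  refine le_trans hle ?_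
  rw [hG]
  simp only
  have q1 : (t - n - y)⁻¹ ≤ δ⁻¹ := inv_anti₀ hδ (by linarith)
  have q2 : (1 - t + n + x)⁻¹ ≤ δ⁻¹ := inv_anti₀ hδ (by linarith)
  have q3 : 0 ≤ (1 - t + n + y)⁻¹ := inv_nonneg.2 (by linarith)
  have q4 : 0 ≤ (t - n - x)⁻¹ := inv_nonneg.2 (by linarith)
  calc 1 / (4 * (H:ℝ)) * ((t - n - y)⁻¹ - (1 - t + n + y)⁻¹) - 1 / (4 * (H:ℝ)) * ((t - n - x)⁻¹ - (1 - t + n + x)⁻¹)
      = 1 / (4 * (H:ℝ)) * ((t - n - y)⁻¹ - (1 - t + n + y)⁻¹ - (t - n - x)⁻¹ + (1 - t + n + x)⁻¹) := by ring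
    _ ≤ 1 / (4 * (H:ℝ)) * (2 * δ⁻¹) := mul_le_mul_of_nonneg_left (by linarith) hH
    _ = 1 / (2 * H * δ) := by
        rcases Nat.eq_zero_or_pos H with h | h
        · subst h; simp
        · have : (H:ℝ) ≠ 0 := by positivity
          field_simp; ring

/-! ## counting -/

theorem diag_norm (M : ℕ) (x : ℤ → ℂ) (a B : ℝ) (hB : 0 ≤ B) (h0 : ‖x 0‖ ≤ a)
    (h1 : ∀ k : ℤ, k ≠ 0 → |k| ≤ M → ‖x k‖ ≤ B) :
    ‖∑ p ∈ range M ×ˢ range M, x ((p.1:ℤ) - p.2)‖ ≤ M * a + (M:ℝ) ^ 2 * B := by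
  have ha : 0 ≤ a := le_trans (norm_nonneg _) h0
  calc ‖∑ p ∈ range M ×ˢ range M, x ((p.1:ℤ) - p.2)‖ ≤ ∑ p ∈ range M ×ˢ range M, ‖x ((p.1:ℤ) - p.2)‖ :=
        norm_sum_le _ _
    _ ≤ ∑ p ∈ range M ×ˢ range M, ((if ((p.1:ℤ) - p.2) = 0 then a else 0) + B) := by
        refine Finset.sum_le_sum fun p hp => ?_
        rw [Finset.mem_product, Finset.mem_range, Finset.mem_range] at hp
        split_ifs with h
        · rw [h]; linarith
        · rw [zero_add]
          refine h1 _ h ?_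
          rw [abs_le]; constructor <;> omega
    _ = _ := by
        rw [Finset.sum_add_distrib, diag_sum, Finset.sum_const, Finset.card_product, Finset.card_range,
          nsmul_eq_mul, nsmul_eq_mul]
        push_cast
        ring

/-- few points near `z + Z` -/
theorem near (N H : ℕ) (hH : 1 ≤ H) (B : ℝ) (hB : 0 ≤ B) (T : ℕ → ℝ)
    (hS : ∀ h : ℤ, h ≠ 0 → |h| ≤ H → ‖∑ m ∈ range N, ex ((h:ℝ) * T m)‖ ≤ B) (z : ℝ)
    (P : ℕ → Prop) [DecidablePred P] (hP : ∀ m, P m → ∃ n : ℤ, |T m - z - n| < 1 / Real.sqrt H) :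
    (((range N).filter P).card : ℝ) ≤ 64 * N / Real.sqrt H + 4 * B := by
  have hH0 : (0:ℝ) < H := by exact_mod_cast hH
  have hs : 0 < Real.sqrt H := Real.sqrt_pos.2 hH0
  rcases lt_or_ge (Real.sqrt H) 8 with h8 | h8
  · have h1 : (((range N).filter P).card : ℝ) ≤ N := by
      have := Finset.card_filter_le (range N) P
      rw [Finset.card_range] at this
      exact_mod_cast this
    have h2 : (N:ℝ) ≤ 64 * N / Real.sqrt H := by
      rw [le_div_iff₀ hs]
      have : (0:ℝ) ≤ N := by positivity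
      nlinarith
    linarith
  · set M : ℕ := ⌊Real.sqrt H / 8⌋₊ with hM
    have hM1 : 1 ≤ M := by
      rw [hM]; exact Nat.le_floor (by rw [Nat.cast_one, le_div_iff₀ (by norm_num)]; linarith)
    have hM2 : (M:ℝ) ≤ Real.sqrt H / 8 := Nat.floor_le (by positivity)
    have hM3 : Real.sqrt H / 16 ≤ M := by
      have := Nat.lt_floor_add_one (Real.sqrt H / 8)
      rw [← hM] at this
      have hM1' : (1:ℝ) ≤ M := by exact_mod_cast hM1
      linarith
    have hM0 : (0:ℝ) < M := by exact_mod_cast hM1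
    have hMH : M ≤ H := by
      have h1 : Real.sqrt H ≤ H := by
        rw [Real.sqrt_le_left (by positivity)]
        have : (1:ℝ) ≤ H := by exact_mod_cast hH
        nlinarith
      have : (M:ℝ) ≤ H := by linarith
      exact_mod_cast this
    have hup : ∑ m ∈ range N, Kr M (T m - z) ≤ N + M * B := by
      have e1 : ((∑ m ∈ range N, Kr M (T m - z) : ℝ) : ℂ) = 1 / (M:ℂ) *
          ∑ p ∈ range M ×ˢ range M, (fun k : ℤ => ex (-((k:ℝ) * z)) * ∑ m ∈ range N, ex ((k:ℝ) * T m))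
            ((p.1:ℤ) - p.2) := by
        push_cast
        simp_rw [Kr_expand]
        rw [← Finset.mul_sum, Finset.sum_comm]
        congr 1
        refine Finset.sum_congr rfl fun p _ => ?_
        rw [Finset.mul_sum]
        refine Finset.sum_congr rfl fun m _ => ?_
        rw [← ex_add]; congr 1; push_cast; ring
      have e2 := diag_norm M (fun k : ℤ => ex (-((k:ℝ) * z)) * ∑ m ∈ range N, ex ((k:ℝ) * T m)) N B hB
        (by
          simp only [norm_mul, norm_ex, one_mul]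
          refine le_trans (norm_sum_le _ _) ?_
          simp [norm_ex])
        (by
          intro k hk hkM
          simp only [norm_mul, norm_ex, one_mul]
          exact hS k hk (le_trans hkM (by exact_mod_cast hMH)))
      have e3 : ‖((∑ m ∈ range N, Kr M (T m - z) : ℝ) : ℂ)‖ ≤ 1 / (M:ℝ) * (M * N + (M:ℝ) ^ 2 * B) := by
        rw [e1, norm_mul]
        have : ‖1 / (M:ℂ)‖ = 1 / (M:ℝ) := by simp
        rw [this]
        exact mul_le_mul_of_nonneg_left e2 (by positivity)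
      rw [Complex.norm_real, Real.norm_eq_abs] at e3
      have e4 : 1 / (M:ℝ) * (M * N + (M:ℝ) ^ 2 * B) = N + M * B := by field_simp
      rw [e4] at e3
      exact le_trans (le_abs_self _) e3
    have hlow : (((range N).filter P).card : ℝ) * ((M:ℝ) / 4) ≤ ∑ m ∈ range N, Kr M (T m - z) := by
      rw [← nsmul_eq_mul]
      refine le_trans (Finset.card_nsmul_le_sum ((range N).filter P) (fun m => Kr M (T m - z)) _ ?_) ?_
      · intro m hm
        rw [Finset.mem_filter] at hm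
        obtain ⟨n, hn⟩ := hP m hm.2
        refine Kr_lower M hM1 _ n (le_trans hn.le ?_)
        refine one_div_le_one_div_of_le (by positivity) ?_
        linarith
      · exact Finset.sum_le_sum_of_subset_of_nonneg (Finset.filter_subset _ _) fun _ _ _ => Kr_nonneg _ _
    have h1 : (((range N).filter P).card : ℝ) * ((M:ℝ) / 4) ≤ N + M * B := le_trans hlow hup
    have h2 : (((range N).filter P).card : ℝ) ≤ 4 * N / M + 4 * B := by
      have h3 : (((range N).filter P).card : ℝ) = (((range N).filter P).card : ℝ) * ((M:ℝ) / 4) * (4 / M) := by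
        field_simp
      rw [h3]
      calc (((range N).filter P).card : ℝ) * ((M:ℝ) / 4) * (4 / M) ≤ (N + M * B) * (4 / M) :=
            mul_le_mul_of_nonneg_right h1 (by positivity)
        _ = _ := by field_simp
    have h3 : 4 * (N:ℝ) / M ≤ 64 * N / Real.sqrt H := by
      rw [div_le_div_iff₀ hM0 hs]
      have : (0:ℝ) ≤ N := by positivity
      nlinarith
    linarith

/-! ## the pointwise bound -/

theorem close (H b : ℕ) (hH : 1 ≤ H) (hb : 2 ≤ b) (a : ℤ) (ha0 : 0 ≤ a) (hab : a < b) (δ : ℝ) (hδ : 0 < δ) (t : ℝ)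
    (h1 : ∀ n : ℤ, δ ≤ |t - (a:ℝ) / b - n|) (h2 : ∀ n : ℤ, δ ≤ |t - ((a:ℝ) / b + 1 / b) - n|) :
    |(if ⌊t * b⌋ % (b:ℤ) = a then (1:ℝ) else 0) - Fr H ((a:ℝ) / b) ((a:ℝ) / b + 1 / b) t| ≤ 1 / (2 * H * δ) := by
  have hb0 : (0:ℝ) < b := by exact_mod_cast (by omega : 0 < b)
  set α : ℝ := (a:ℝ) / b with hα
  set n : ℤ := ⌊t⌋ with hn
  have hτ0 : 0 ≤ t - n := by have := Int.floor_le t; linarith
  have hτ1 : t - n < 1 := by have := Int.lt_floor_add_one t; linarith
  have hα0 : 0 ≤ α := by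
    have : (0:ℝ) ≤ a := by exact_mod_cast ha0
    positivity
  have hα1 : α + 1 / b ≤ 1 := by
    rw [hα, ← add_div, div_le_one hb0]
    exact_mod_cast (by omega : a + 1 ≤ (b:ℤ))
  have hbi : (0:ℝ) < 1 / b := by positivity
  -- the digit
  have hfl : ⌊t * b⌋ % (b:ℤ) = ⌊(t - n) * b⌋ := by
    have e1 : ⌊t * b⌋ = ⌊(t - n) * b⌋ + n * b := by
      rw [← Int.floor_add_intCast]; congr 1; push_cast; ring
    rw [e1, Int.add_mul_emod_self_right]
    refine Int.emod_eq_of_lt (Int.floor_nonneg.2 (by positivity)) ?_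
    rw [Int.floor_lt]
    push_cast
    nlinarith
  have hdig : (⌊t * b⌋ % (b:ℤ) = a) ↔ (α ≤ t - n ∧ t - n < α + 1 / b) := by
    rw [hfl, Int.floor_eq_iff, hα, div_le_iff₀ hb0, ← add_div, lt_div_iff₀ hb0]
  by_cases hd : ⌊t * b⌋ % (b:ℤ) = a
  · rw [if_pos hd]
    obtain ⟨d1, d2⟩ := hdig.1 hd
    have e1 : 1 - Fr H α (α + 1 / b) t = Fr H (α + 1 / b) (α + 1) t := by
      have q1 := Fr_period H hH α t
      have q2 := Fr_add H α (α + 1 / b) (α + 1) t
      linarith
    rw [e1, abs_of_nonneg (Fr_nonneg _ _ _ _ (by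
      have : (1:ℝ) / b ≤ 1 := by linarith
      linarith))]
    refine tail H δ hδ t _ _ (n - 1) (by linarith) ?_ ?_
    · have := h1 n
      rw [abs_of_nonneg (by linarith)] at this
      push_cast; linarith
    · have := h2 n
      rw [abs_of_nonpos (by linarith)] at this
      push_cast; linarith
  · rw [if_neg hd, zero_sub, abs_neg, abs_of_nonneg (Fr_nonneg _ _ _ _ (by linarith))]
    rcases lt_or_ge (t - n) α with hlt | hge
    · refine tail H δ hδ t _ _ (n - 1) (by linarith) ?_ ?_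
      · have := h2 (n - 1)
        rw [abs_of_nonneg (by push_cast; linarith)] at this
        exact this
      · have := h1 n
        rw [abs_of_nonpos (by linarith)] at this
        push_cast; linarith
    · have hge2 : α + 1 / b ≤ t - n := by
        by_contra hc
        exact hd (hdig.2 ⟨hge, not_le.1 hc⟩)
      refine tail H δ hδ t _ _ n (by linarith) ?_ ?_
      · have := h2 n
        rw [abs_of_nonneg (by linarith)] at this
        exact this
      · have := h1 (n + 1)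
        rw [abs_of_nonpos (by push_cast; linarith)] at this
        push_cast at this
        linarith

/-! ## independence -/

theorem Wy_mono {b D D' N K : ℕ} {R B : ℝ} {y : ℕ → ℝ} (hR : 0 ≤ R) (h : Wy b D N K R B y) (hD : D' ≤ D) :
    Wy b D' N K R B y := by
  obtain ⟨k, rfl⟩ := Nat.exists_eq_add_of_le hD
  intro e he lam hlam hne
  have hsum : ∑ i, (Fin.append lam (fun _ : Fin k => 0)) i * (b : ℤ) ^ ((Fin.append e (fun _ : Fin k => 0)) i) =
      ∑ i, lam i * (b : ℤ) ^ (e i) := by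
    rw [Fin.sum_univ_add]
    simp [Fin.append_left, Fin.append_right]
  have := h (Fin.append e (fun _ => 0)) (by
      intro i
      refine Fin.addCases (fun i => ?_) (fun i => ?_) i
      · rw [Fin.append_left]; exact he i
      · rw [Fin.append_right]; exact Nat.zero_le _) (Fin.append lam (fun _ => 0)) (by
      intro i
      refine Fin.addCases (fun i => ?_) (fun i => ?_) i
      · rw [Fin.append_left]; exact hlam i
      · rw [Fin.append_right]; simpa using hR) (by rw [hsum]; exact hne)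
  rw [hsum] at this
  exact this

theorem prod_diff {ι : Type*} (s : Finset ι) (f g : ι → ℝ) (hf : ∀ i, 0 ≤ f i ∧ f i ≤ 1)
    (hg : ∀ i, 0 ≤ g i ∧ g i ≤ 1) : |∏ i ∈ s, f i - ∏ i ∈ s, g i| ≤ ∑ i ∈ s, |f i - g i| := by
  classical
  induction s using Finset.induction_on with
  | empty => simp
  | insert a s ha ih =>
    rw [Finset.prod_insert ha, Finset.prod_insert ha, Finset.sum_insert ha]
    have hP0 : 0 ≤ ∏ i ∈ s, f i := Finset.prod_nonneg fun i _ => (hf i).1
    have hP1 : ∏ i ∈ s, f i ≤ 1 := Finset.prod_le_one (fun i _ => (hf i).1) fun i _ => (hf i).2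
    have e : f a * ∏ i ∈ s, f i - g a * ∏ i ∈ s, g i =
        (f a - g a) * ∏ i ∈ s, f i + g a * (∏ i ∈ s, f i - ∏ i ∈ s, g i) := by ring
    rw [e]
    refine le_trans (abs_add_le _ _) (add_le_add ?_ ?_)
    · rw [abs_mul, abs_of_nonneg hP0]
      exact mul_le_of_le_one_right (abs_nonneg _) hP1
    · rw [abs_mul, abs_of_nonneg (hg a).1]
      calc g a * |∏ i ∈ s, f i - ∏ i ∈ s, g i| ≤ 1 * |∏ i ∈ s, f i - ∏ i ∈ s, g i| :=
            mul_le_mul_of_nonneg_right (hg a).2 (abs_nonneg _)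
        _ ≤ _ := by rw [one_mul]; exact ih

theorem Q_ne (b : ℕ) (hb : 2 ≤ b) {s : ℕ} (e : Fin s → ℕ) (he : Function.Injective e) (he1 : ∀ i, 1 ≤ e i)
    (h : Fin s → ℤ) (hd : ∀ i, h i = 0 ∨ ¬ (b:ℤ) ∣ h i) (hne : ∃ i, h i ≠ 0) :
    ∑ i, h i * (b : ℤ) ^ (e i - 1) ≠ 0 := by
  classical
  obtain ⟨i₁, hi₁⟩ := hne
  obtain ⟨i₀, hi₀, hmin⟩ := Finset.exists_min_image (Finset.univ.filter fun i => h i ≠ 0) e
    ⟨i₁, by simp [hi₁]⟩
  rw [Finset.mem_filter] at hi₀
  intro h0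
  rw [← Finset.add_sum_erase _ _ (Finset.mem_univ i₀)] at h0
  have h1 : (b:ℤ) ^ (e i₀) ∣ ∑ i ∈ Finset.univ.erase i₀, h i * (b : ℤ) ^ (e i - 1) := by
    refine Finset.dvd_sum fun i hi => ?_
    rw [Finset.mem_erase] at hi
    by_cases hz : h i = 0
    · rw [hz, zero_mul]; exact dvd_zero _
    · have h2 := hmin i (by simp [hz])
      have h3 : e i ≠ e i₀ := fun hc => hi.1 (he hc)
      exact Dvd.dvd.mul_left (pow_dvd_pow _ (by omega)) _
  have h2 : (b:ℤ) ^ (e i₀) ∣ h i₀ * (b : ℤ) ^ (e i₀ - 1) := by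
    rw [eq_neg_of_add_eq_zero_left h0]
    exact (dvd_neg).2 h1
  have h3 : (b:ℤ) ^ (e i₀) = b * (b:ℤ) ^ (e i₀ - 1) := by
    rw [← pow_succ']; congr 1; have := he1 i₀; omega
  rw [h3] at h2
  have h4 : (b:ℤ) ^ (e i₀ - 1) ≠ 0 := by
    have : (b:ℤ) ≠ 0 := by omega
    positivity
  have h5 := Int.dvd_of_mul_dvd_mul_right h4 h2
  rcases hd i₀ with h6 | h6
  · exact hi₀.2 h6
  · exact h6 h5

/-- the main term: products of the smoothed indicators -/
theorem main_term (b N K H s : ℕ) (hb : 2 ≤ b) (hH : 1 ≤ H) (B : ℝ) (hB : 0 ≤ B) (y : ℕ → ℝ)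
    (hW : Wy b s N K (H:ℝ) B y) (e : Fin s → ℕ) (he : Function.Injective e) (he1 : ∀ i, 1 ≤ e i ∧ e i ≤ K)
    (α : Fin s → ℝ) :
    |∑ m ∈ range N, ∏ i, Fr H (α i) (α i + 1 / b) ((b:ℝ) ^ (e i - 1) * y m) - (N:ℝ) / (b:ℝ) ^ s| ≤
      (H:ℝ) ^ s * B := by
  classical
  have hH0 : (H:ℂ) ≠ 0 := by
    have : H ≠ 0 := by omega
    exact_mod_cast this
  have hHr : (0:ℝ) < H := by exact_mod_cast hH
  have hb0 : (0:ℝ) < b := by exact_mod_cast (by omega : 0 < b)
  -- expansion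
  have e1 : ((∑ m ∈ range N, ∏ i, Fr H (α i) (α i + 1 / b) ((b:ℝ) ^ (e i - 1) * y m) : ℝ) : ℂ) =
      ∑ P ∈ Fintype.piFinset (fun _ : Fin s => range H ×ˢ range H),
        (∏ i, 1 / (H:ℂ) * cc (α i) (α i + 1 / b) (((P i).1:ℤ) - (P i).2)) *
          ∑ m ∈ range N, ex (((∑ i, (((P i).1:ℤ) - (P i).2) * (b:ℤ) ^ (e i - 1) : ℤ) : ℝ) * y m) := by
    rw [Complex.ofReal_sum]
    simp_rw [Complex.ofReal_prod, Fr_expand]
    have e2 : ∀ m ∈ range N, ∏ i : Fin s, ∑ p ∈ range H ×ˢ range H,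
        1 / (H:ℂ) * (ex ((((p.1:ℤ) - p.2 : ℤ) : ℝ) * ((b:ℝ) ^ (e i - 1) * y m)) *
          cc (α i) (α i + 1 / b) ((p.1:ℤ) - p.2)) =
        ∑ P ∈ Fintype.piFinset (fun _ : Fin s => range H ×ˢ range H),
          (∏ i, 1 / (H:ℂ) * cc (α i) (α i + 1 / b) (((P i).1:ℤ) - (P i).2)) *
            ex (((∑ i, (((P i).1:ℤ) - (P i).2) * (b:ℤ) ^ (e i - 1) : ℤ) : ℝ) * y m) := by
      intro m _
      rw [Finset.prod_univ_sum]
      refine Finset.sum_congr rfl fun P _ => ?_
      have e3 : ex (((∑ i, (((P i).1:ℤ) - (P i).2) * (b:ℤ) ^ (e i - 1) : ℤ) : ℝ) * y m) =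
          ∏ i, ex (((((P i).1:ℤ) - (P i).2 : ℤ) : ℝ) * ((b:ℝ) ^ (e i - 1) * y m)) := by
        have e4 : ∀ (S : Finset (Fin s)) (g : Fin s → ℝ), ex (∑ i ∈ S, g i) = ∏ i ∈ S, ex (g i) := by
          intro S g
          induction S using Finset.induction_on with
          | empty => simp [ex_zero]
          | insert a S ha ih => rw [Finset.sum_insert ha, Finset.prod_insert ha, ex_add, ih]
        rw [← e4]
        congr 1
        push_cast
        rw [Finset.sum_mul]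
        refine Finset.sum_congr rfl fun i _ => ?_
        ring
      rw [e3, ← Finset.prod_mul_distrib]
      refine Finset.prod_congr rfl fun i _ => ?_
      ring
    rw [Finset.sum_congr rfl e2, Finset.sum_comm]
    refine Finset.sum_congr rfl fun P _ => ?_
    rw [Finset.mul_sum]
  -- diagonal
  have e6 : ((N:ℂ) / (b:ℂ) ^ s) = ∑ P ∈ Fintype.piFinset (fun _ : Fin s => range H ×ˢ range H),
      (∏ i, (if (((P i).1:ℤ) - (P i).2) = 0 then 1 / (H:ℂ) * (1 / b) else 0)) * (N:ℂ) := by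
    rw [← Finset.sum_mul]
    have e7 := (Finset.prod_univ_sum (fun _ : Fin s => range H ×ˢ range H)
      (fun (_ : Fin s) (p : ℕ × ℕ) => (if ((p.1:ℤ) - p.2) = 0 then 1 / (H:ℂ) * (1 / b) else 0))).symm
    rw [e7]
    simp_rw [diag_sum]
    rw [Finset.prod_const, Finset.card_univ, Fintype.card_fin, nsmul_eq_mul]
    have e8 : (H:ℂ) * (1 / (H:ℂ) * (1 / (b:ℂ))) = 1 / b := by field_simp
    rw [e8]
    ring
  have e9 : ‖((∑ m ∈ range N, ∏ i, Fr H (α i) (α i + 1 / b) ((b:ℝ) ^ (e i - 1) * y m) - (N:ℝ) / (b:ℝ) ^ s : ℝ) : ℂ)‖ ≤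
      (H:ℝ) ^ s * B := by
    rw [Complex.ofReal_sub, e1]
    have e10 : (((N:ℝ) / (b:ℝ) ^ s : ℝ) : ℂ) = (N:ℂ) / (b:ℂ) ^ s := by push_cast; ring
    rw [e10, e6, ← Finset.sum_sub_distrib]
    have hterm : ∀ P ∈ Fintype.piFinset (fun _ : Fin s => range H ×ˢ range H),
        ‖(∏ i, 1 / (H:ℂ) * cc (α i) (α i + 1 / b) (((P i).1:ℤ) - (P i).2)) *
          (∑ m ∈ range N, ex (((∑ i, (((P i).1:ℤ) - (P i).2) * (b:ℤ) ^ (e i - 1) : ℤ) : ℝ) * y m)) -
          (∏ i, (if (((P i).1:ℤ) - (P i).2) = 0 then 1 / (H:ℂ) * (1 / b) else 0)) * (N:ℂ)‖ ≤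
          (1 / (H:ℝ)) ^ s * B := by
      intro P hP
      rw [Fintype.mem_piFinset] at hP
      by_cases hall : ∀ i, (((P i).1:ℤ) - (P i).2) = 0
      · have : (∏ i, 1 / (H:ℂ) * cc (α i) (α i + 1 / b) (((P i).1:ℤ) - (P i).2)) *
          (∑ m ∈ range N, ex (((∑ i, (((P i).1:ℤ) - (P i).2) * (b:ℤ) ^ (e i - 1) : ℤ) : ℝ) * y m)) -
          (∏ i, (if (((P i).1:ℤ) - (P i).2) = 0 then 1 / (H:ℂ) * (1 / b) else 0)) * (N:ℂ) = 0 := by
          simp [hall, cc_zero, ex_zero]
        rw [this, norm_zero]; positivity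
      · push Not at hall
        obtain ⟨i₁, hi₁⟩ := hall
        have z1 : (∏ i, (if (((P i).1:ℤ) - (P i).2) = 0 then 1 / (H:ℂ) * (1 / b) else 0)) = 0 :=
          Finset.prod_eq_zero (Finset.mem_univ i₁) (if_neg hi₁)
        rw [z1, zero_mul, sub_zero, norm_mul]
        by_cases hdiv : ∀ i, (((P i).1:ℤ) - (P i).2) = 0 ∨ ¬ (b:ℤ) ∣ (((P i).1:ℤ) - (P i).2)
        · have hQ := Q_ne b hb e he (fun i => (he1 i).1) _ hdiv ⟨i₁, hi₁⟩
          have h1 := hW (fun i => e i - 1) (fun i => by have := (he1 i).2; omega)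
            (fun i => (((P i).1:ℤ) - (P i).2)) (fun i => by
              have := hP i
              rw [Finset.mem_product, Finset.mem_range, Finset.mem_range] at this
              have h2 : |(((P i).1:ℤ) - (P i).2)| ≤ (H:ℤ) := by rw [abs_le]; constructor <;> omega
              exact_mod_cast h2) hQ
          refine mul_le_mul ?_ h1 (norm_nonneg _) (by positivity)
          rw [norm_prod]
          calc ∏ i, ‖1 / (H:ℂ) * cc (α i) (α i + 1 / b) (((P i).1:ℤ) - (P i).2)‖ ≤ ∏ i : Fin s, 1 / (H:ℝ) := by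
                refine Finset.prod_le_prod (fun _ _ => norm_nonneg _) fun i _ => ?_
                rw [norm_mul]
                have q1 : ‖1 / (H:ℂ)‖ = 1 / (H:ℝ) := by simp
                have q2 := cc_norm (α i) (α i + 1 / b) (by
                  have : (0:ℝ) ≤ 1 / b := by positivity
                  linarith) (((P i).1:ℤ) - (P i).2)
                have q3 : α i + 1 / (b:ℝ) - α i ≤ 1 := by
                  have : 1 / (b:ℝ) ≤ 1 := by
                    rw [div_le_one hb0]; exact_mod_cast (by omega : 1 ≤ b)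
                  linarith
                rw [q1]
                exact mul_le_of_le_one_right (by positivity) (le_trans q2 q3)
            _ = _ := by simp
        · push Not at hdiv
          obtain ⟨i₂, hi₂, hi₂'⟩ := hdiv
          have z2 : (∏ i, 1 / (H:ℂ) * cc (α i) (α i + 1 / b) (((P i).1:ℤ) - (P i).2)) = 0 := by
            refine Finset.prod_eq_zero (Finset.mem_univ i₂) ?_
            rw [cc_eq_zero (α i₂) b (by omega) _ hi₂ hi₂', mul_zero]
          rw [z2, norm_zero, zero_mul]; positivity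
    refine le_trans (norm_sum_le_of_le _ hterm) ?_
    rw [Finset.sum_const, Fintype.card_piFinset, Finset.prod_const, Finset.card_univ, Fintype.card_fin,
      Finset.card_product, Finset.card_range, nsmul_eq_mul]
    have : ((((H * H) ^ s : ℕ) : ℝ)) * ((1 / (H:ℝ)) ^ s * B) = (H:ℝ) ^ s * B := by
      push_cast
      rw [← mul_assoc, ← mul_pow]
      congr 2
      field_simp
    exact this.le
  rw [Complex.norm_real, Real.norm_eq_abs] at e9
  exact e9

theorem ind : S_ind := by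
  classical
  intro s
  refine ⟨137 * s + 1, by positivity, fun b hb N K H hN hH B hB y hW s' hs' e he heK a ha => ?_⟩
  have hHr : (0:ℝ) < H := by exact_mod_cast hH
  have hH1 : (1:ℝ) ≤ H := by exact_mod_cast hH
  have hs : 0 < Real.sqrt H := Real.sqrt_pos.2 hHr
  have hNr : (0:ℝ) < N := by exact_mod_cast hN
  have hb0 : (0:ℝ) < b := by exact_mod_cast (by omega : 0 < b)
  have hW' := Wy_mono hHr.le hW hs'
  have hmain := main_term b N K H s' hb hH B hB y hW' e he heK (fun i => (a i : ℝ) / b)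
  set F : ℕ → Fin s' → ℝ := fun m i => Fr H ((a i : ℝ) / b) ((a i : ℝ) / b + 1 / b) ((b:ℝ) ^ (e i - 1) * y m) with hF
  set f : ℕ → Fin s' → ℝ := fun m i => if dig b (y m) (e i) = a i then 1 else 0 with hf
  have hcard : ((((Finset.range N).filter (fun m => ∀ i, dig b (y m) (e i) = a i)).card : ℕ) : ℝ) =
      ∑ m ∈ range N, ∏ i, f m i := by
    rw [Finset.card_filter]
    push_cast
    refine Finset.sum_congr rfl fun m _ => ?_
    split_ifs with h
    · symm
      exact Finset.prod_eq_one fun i _ => if_pos (h i)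
    · push Not at h
      obtain ⟨i, hi⟩ := h
      symm
      exact Finset.prod_eq_zero (Finset.mem_univ i) (if_neg hi)
  have hbi1 : (1:ℝ) / b ≤ 1 := by
    rw [div_le_one hb0]; exact_mod_cast (by omega : 1 ≤ b)
  have hbi0 : (0:ℝ) ≤ 1 / b := by positivity
  have hF01 : ∀ m i, 0 ≤ F m i ∧ F m i ≤ 1 := fun m i =>
    ⟨Fr_nonneg _ _ _ _ (by linarith), Fr_le_one _ hH _ _ _ (by linarith)⟩
  have hf01 : ∀ m i, 0 ≤ f m i ∧ f m i ≤ 1 := by
    intro m i
    simp only [hf]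
    split_ifs <;> norm_num
  -- error of one digit
  have hone : ∀ i, ∑ m ∈ range N, |f m i - F m i| ≤ 129 * N / Real.sqrt H + 8 * B := by
    intro i
    have hs1 : 1 ≤ s' := by have := i.2; omega
    have hW1 := Wy_mono hHr.le hW' hs1
    have hS : ∀ h : ℤ, h ≠ 0 → |h| ≤ H → ‖∑ m ∈ range N, ex ((h:ℝ) * ((b:ℝ) ^ (e i - 1) * y m))‖ ≤ B := by
      intro h hh hhH
      have := hW1 (fun _ => e i - 1) (fun _ => by have := (heK i).2; omega) (fun _ => h)
        (fun _ => by exact_mod_cast hhH) (by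
          rw [Fin.sum_univ_one]
          have : (b:ℤ) ≠ 0 := by omega
          positivity)
      rw [Fin.sum_univ_one] at this
      push_cast at this
      have e1 : ∀ m, (h:ℝ) * (b:ℝ) ^ (e i - 1) * y m = (h:ℝ) * ((b:ℝ) ^ (e i - 1) * y m) := fun m => by ring
      simp_rw [e1] at this
      exact this
    have hn1 := near N H hH B hB (fun m => (b:ℝ) ^ (e i - 1) * y m) hS ((a i : ℝ) / b)
      (fun m => ∃ n : ℤ, |(b:ℝ) ^ (e i - 1) * y m - (a i : ℝ) / b - n| < 1 / Real.sqrt H) (fun m hm => hm)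
    have hn2 := near N H hH B hB (fun m => (b:ℝ) ^ (e i - 1) * y m) hS ((a i : ℝ) / b + 1 / b)
      (fun m => ∃ n : ℤ, |(b:ℝ) ^ (e i - 1) * y m - ((a i : ℝ) / b + 1 / b) - n| < 1 / Real.sqrt H) (fun m hm => hm)
    have hpt : ∀ m ∈ range N, |f m i - F m i| ≤ 1 / (2 * Real.sqrt H) +
        ((if ∃ n : ℤ, |(b:ℝ) ^ (e i - 1) * y m - (a i : ℝ) / b - n| < 1 / Real.sqrt H then (1:ℝ) else 0) +
        (if ∃ n : ℤ, |(b:ℝ) ^ (e i - 1) * y m - ((a i : ℝ) / b + 1 / b) - n| < 1 / Real.sqrt H then (1:ℝ) else 0)) := by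
      intro m _
      have htriv : |f m i - F m i| ≤ 1 := by
        rw [abs_le]
        constructor <;> linarith [(hF01 m i).1, (hF01 m i).2, (hf01 m i).1, (hf01 m i).2]
      have hq : 0 ≤ 1 / (2 * Real.sqrt H) := by positivity
      by_cases c1 : ∃ n : ℤ, |(b:ℝ) ^ (e i - 1) * y m - (a i : ℝ) / b - n| < 1 / Real.sqrt H
      · rw [if_pos c1]
        split_ifs <;> linarith
      · by_cases c2 : ∃ n : ℤ, |(b:ℝ) ^ (e i - 1) * y m - ((a i : ℝ) / b + 1 / b) - n| < 1 / Real.sqrt H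
        · rw [if_neg c1, if_pos c2]; linarith
        · rw [if_neg c1, if_neg c2]
          push Not at c1 c2
          have h1 := close H b hH hb (a i) (ha i).1 (ha i).2 (1 / Real.sqrt H) (by positivity)
            ((b:ℝ) ^ (e i - 1) * y m) c1 c2
          have e1 : (b:ℝ) ^ (e i - 1) * y m * b = y m * (b:ℝ) ^ (e i) := by
            have : (b:ℝ) ^ (e i) = (b:ℝ) ^ (e i - 1) * b := by
              rw [← pow_succ]; congr 1; have := (heK i).1; omega
            rw [this]; ring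
          rw [e1] at h1
          have e2 : 1 / (2 * (H:ℝ) * (1 / Real.sqrt H)) = 1 / (2 * Real.sqrt H) := by
            have h3 : Real.sqrt H * Real.sqrt H = H := Real.mul_self_sqrt hHr.le
            congr 1
            rw [mul_one_div, div_eq_iff hs.ne']
            rw [mul_assoc, h3]
          rw [e2] at h1
          have e3 : f m i = (if ⌊y m * (b:ℝ) ^ (e i)⌋ % (b:ℤ) = a i then (1:ℝ) else 0) := by
            simp only [hf]; rfl
          rw [e3]
          linarith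
    refine le_trans (Finset.sum_le_sum hpt) ?_
    rw [Finset.sum_add_distrib, Finset.sum_add_distrib, Finset.sum_const, Finset.card_range, nsmul_eq_mul,
      ← Finset.natCast_card_filter, ← Finset.natCast_card_filter]
    have e4 : (N:ℝ) * (1 / (2 * Real.sqrt H)) ≤ N / Real.sqrt H := by
      rw [mul_one_div]
      exact div_le_div_of_nonneg_left hNr.le hs (by linarith)
    have e5 : 129 * (N:ℝ) / Real.sqrt H = N / Real.sqrt H + 64 * N / Real.sqrt H + 64 * N / Real.sqrt H := by ring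
    rw [e5]
    linarith
  have hdiff : |∑ m ∈ range N, ∏ i, f m i - ∑ m ∈ range N, ∏ i, F m i| ≤
      s' * (129 * N / Real.sqrt H + 8 * B) := by
    rw [← Finset.sum_sub_distrib]
    calc |∑ m ∈ range N, (∏ i, f m i - ∏ i, F m i)| ≤ ∑ m ∈ range N, |∏ i, f m i - ∏ i, F m i| :=
          Finset.abs_sum_le_sum_abs _ _
      _ ≤ ∑ m ∈ range N, ∑ i, |f m i - F m i| :=
          Finset.sum_le_sum fun m _ => prod_diff _ _ _ (hf01 m) (hF01 m)
      _ = ∑ i, ∑ m ∈ range N, |f m i - F m i| := Finset.sum_comm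
      _ ≤ ∑ i : Fin s', (129 * N / Real.sqrt H + 8 * B) := Finset.sum_le_sum fun i _ => hone i
      _ = _ := by rw [Finset.sum_const, Finset.card_univ, Fintype.card_fin, nsmul_eq_mul]
  rw [hcard]
  have hHs : (H:ℝ) ^ s' ≤ (H:ℝ) ^ s := pow_le_pow_right₀ hH1 hs'
  have hHs1 : (1:ℝ) ≤ (H:ℝ) ^ s := one_le_pow₀ hH1
  have hss : (s':ℝ) ≤ s := by exact_mod_cast hs'
  have hBs : B ≤ (H:ℝ) ^ s * B := by nlinarith
  have hBs' : (H:ℝ) ^ s' * B ≤ (H:ℝ) ^ s * B := mul_le_mul_of_nonneg_right hHs hB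
  have hNs : 0 ≤ (N:ℝ) / Real.sqrt H := by positivity
  have hs0 : (0:ℝ) ≤ s := by positivity
  have hE : (137 * (s:ℝ) + 1) * (1 / Real.sqrt H + (H:ℝ) ^ s * B / N) * N =
      (137 * (s:ℝ) + 1) * (N / Real.sqrt H) + (137 * (s:ℝ) + 1) * ((H:ℝ) ^ s * B) := by
    field_simp
  rw [hE]
  have h1 : |∑ m ∈ range N, ∏ i, f m i - (N:ℝ) / (b:ℝ) ^ s'| ≤
      s' * (129 * N / Real.sqrt H + 8 * B) + (H:ℝ) ^ s' * B := by
    have := abs_add_le (∑ m ∈ range N, ∏ i, f m i - ∑ m ∈ range N, ∏ i, F m i)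
      (∑ m ∈ range N, ∏ i, F m i - (N:ℝ) / (b:ℝ) ^ s')
    rw [show ∑ m ∈ range N, ∏ i, f m i - ∑ m ∈ range N, ∏ i, F m i + (∑ m ∈ range N, ∏ i, F m i - (N:ℝ) / (b:ℝ) ^ s') =
      ∑ m ∈ range N, ∏ i, f m i - (N:ℝ) / (b:ℝ) ^ s' by ring] at this
    linarith
  refine le_trans h1 ?_
  have h2 : (s':ℝ) * (129 * N / Real.sqrt H + 8 * B) ≤ s * (129 * N / Real.sqrt H + 8 * B) := by
    refine mul_le_mul_of_nonneg_right hss ?_
    have : 0 ≤ 129 * (N:ℝ) / Real.sqrt H := by positivity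
    linarith
  have h3 : (s:ℝ) * (129 * N / Real.sqrt H + 8 * B) = 129 * s * (N / Real.sqrt H) + 8 * s * B := by ring
  have h4 : (s:ℝ) * B ≤ s * ((H:ℝ) ^ s * B) := mul_le_mul_of_nonneg_left hBs hs0
  have h5 : 0 ≤ (s:ℝ) * ((H:ℝ) ^ s * B) := by positivity
  have h6 : 0 ≤ (s:ℝ) * (N / Real.sqrt H) := by positivity
  nlinarith

end Pool.Agent.W991.NM
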